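import Pool.Agent.W959.TC.Loc

/-!
Project TC, part COMB: the assembly.
-/

set_option autoImplicit false
set_option linter.unusedSectionVars false

namespace Pool.Agent.W959.TC

open Pool.Agent.W495.TC Pool.Agent.W495.TA Pool.Agent.W547.LD

noncomputable section

open Classical

section one

variable {G X : Type} [Group G] [Fintype G] [Fintype X] [MulAction G X] {c : G}

theorem nf_smul_iff (D : Subgroup G) (ε : X → ℤ) (g : G) (x y : X) :
    nf D ε (g • x) = nf D ε (g • y) ↔ nf D ε x = nf D ε y := by
  constructor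
  · intro h
    funext u
    have := congrFun h (u * g⁻¹)
    rw [nf_smul, nf_smul, inv_mul_cancel_right] at this
    exact this
  · intro h
    funext u
    rw [nf_smul, nf_smul, h]

theorem ex_mu (hS : Setting G X c) (D : Subgroup G) (ε : X → ℤ) :
    ∃ mu : ℕ, 0 < mu ∧ ∀ x, Nat.card {x' // nf D ε x' = nf D ε x} = mu := by
  rcases isEmpty_or_nonempty X with h | ⟨⟨x₀⟩⟩
  · exact ⟨1, one_pos, fun x => h.elim x⟩
  · refine ⟨Nat.card {x' // nf D ε x' = nf D ε x₀}, ?_, fun x => ?_⟩
    · have : Nonempty {x' // nf D ε x' = nf D ε x₀} := ⟨⟨x₀, rfl⟩⟩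
      exact Nat.card_pos
    · obtain ⟨g, rfl⟩ := hS.trans x₀ x
      exact (Nat.card_congr ((MulAction.toPerm g).subtypeEquiv fun y =>
        (nf_smul_iff D ε g y x₀).symm)).symm

end one

section rel

variable {G X κ : Type} [Fintype X] [Fintype κ]

theorem rel1 (σ : X → X) (hσ : ∀ x, σ (σ x) = x) (n : X → G → ℤ) (hn : ∀ x, n (σ x) = -n x)
    (mu : ℕ) (hmu : ∀ x, Nat.card {x' // n x' = n x} = mu) (t : κ → G → ℤ) (g : G) :
    ∑ x, dcnt t (n x) * n x g = 2 * mu * ∑ k, if ∃ x, n x = t k then t k g else 0 := by
  have h1 : ∀ k, ∑ x, (if t k = n x then (1 : ℤ) else 0) * n x g =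
      mu * if ∃ x, n x = t k then t k g else 0 := by
    intro k
    split_ifs with h
    · obtain ⟨y, hy⟩ := h
      have h2 : ∑ x, (if t k = n x then (1 : ℤ) else 0) * n x g =
          ∑ x, (if n x = n y then (1 : ℤ) else 0) * t k g := by
        refine Finset.sum_congr rfl fun x _ => ?_
        by_cases h3 : t k = n x
        · rw [if_pos h3, if_pos (by rw [← h3, hy]), h3]
        · rw [if_neg h3, if_neg (fun h4 => h3 (by rw [h4, hy]))]
          ring
      rw [h2, ← Finset.sum_mul, Finset.sum_boole, ← hmu y, Nat.card_eq_fintype_card,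
        Fintype.card_subtype]
    · rw [mul_zero]
      refine Finset.sum_eq_zero fun x _ => ?_
      rw [if_neg (fun h3 => h ⟨x, h3.symm⟩), zero_mul]
  have h2 : ∀ k, ∑ x, (if t k = -n x then (1 : ℤ) else 0) * n x g =
      -∑ x, (if t k = n x then (1 : ℤ) else 0) * n x g := by
    intro k
    rw [← Finset.sum_neg_distrib]
    refine Finset.sum_bij (fun x _ => σ x) (fun _ _ => Finset.mem_univ _)
      (fun x _ y _ h => by rw [← hσ x, h, hσ]) (fun y _ => ⟨σ y, Finset.mem_univ _, hσ y⟩) ?_
    intro x _
    rw [hn x, Pi.neg_apply]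
    ring
  calc ∑ x, dcnt t (n x) * n x g = ∑ x, ∑ k, ((if t k = n x then (1 : ℤ) else 0) * n x g -
        (if t k = -n x then (1 : ℤ) else 0) * n x g) := by
        refine Finset.sum_congr rfl fun x _ => ?_
        rw [dcnt_eq, Finset.sum_mul]
        refine Finset.sum_congr rfl fun k _ => ?_
        unfold dl
        ring
    _ = ∑ k, (∑ x, (if t k = n x then (1 : ℤ) else 0) * n x g -
        ∑ x, (if t k = -n x then (1 : ℤ) else 0) * n x g) := by
        rw [Finset.sum_comm]
        simp only [Finset.sum_sub_distrib]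
    _ = ∑ k, 2 * (mu * if ∃ x, n x = t k then t k g else 0) := by
        refine Finset.sum_congr rfl fun k _ => ?_
        rw [h2, h1]
        ring
    _ = _ := by
        rw [Finset.mul_sum]
        refine Finset.sum_congr rfl fun k _ => ?_
        ring

theorem dl_q (e f : G → ℤ) : ((dl e f : ℤ) : ℚ) =
    (if e = f then (1 : ℚ) else 0) - if e = -f then (1 : ℚ) else 0 := by
  unfold dl
  push_cast
  rfl

end rel

theorem int_sum {ι : Type} (S : Finset ι) (w : ι → ℚ) (h : ∀ i ∈ S, ∃ k : ℤ, w i = k) :
    ∃ k : ℤ, ∑ i ∈ S, w i = k := by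
  have h' : ∀ i, ∃ k : ℤ, i ∈ S → w i = k := by
    intro i
    by_cases hi : i ∈ S
    · obtain ⟨k, hk⟩ := h i hi
      exact ⟨k, fun _ => hk⟩
    · exact ⟨0, fun h => absurd h hi⟩
  choose k hk using h'
  refine ⟨∑ i ∈ S, k i, ?_⟩
  push_cast
  exact Finset.sum_congr rfl fun i hi => hk i hi

theorem comb : S_combC := by
  intro hsep hsing hgrp hloc hind G _ _ c ι _ X _ _ hS D ε hε h6 hdisj hwide Q hQ hcan hblock κ _ t
    ht hsum heven
  have hn : ∀ i (x : X i), nf D (ε i) (c • x) = -nf D (ε i) x := fun i x =>
    nf_c D (ε i) (hS i) (hε i).odd x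
  have hmu := fun i => ex_mu (hS i) D (ε i)
  choose mu hmu0 hmu using hmu
  have hcc : ∀ i (x : X i), c • c • x = x := fun i x => by rw [smul_smul, (hS i).sq, one_smul]
  have hAneg : ∀ f : G → ℤ, dcnt t (-f) = -dcnt t f := dcnt_neg t
  -- the relation
  have hrel : ∀ g i, ∑ x, (dcnt t (nf D (ε i) x) : ℚ) * (nf D (ε i) x g : ℚ) =
      2 * mu i * ∑ k, if ∃ x, nf D (ε i) x = t k then (t k g : ℚ) else 0 := by
    intro g i
    have h1 := rel1 (fun x : X i => c • x) (hcc i) (nf D (ε i)) (hn i) (mu i) (hmu i) t g
    exact_mod_cast h1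
  have htot : ∀ g, ∑ i, ∑ k, (if ∃ x, nf D (ε i) x = t k then (t k g : ℚ) else 0) = 0 := by
    intro g
    rw [Finset.sum_comm]
    have h1 : ∀ k, ∑ i, (if ∃ x, nf D (ε i) x = t k then (t k g : ℚ) else 0) = t k g := by
      intro k
      obtain ⟨i, x, hx⟩ := ht k
      rw [Finset.sum_eq_single i]
      · rw [if_pos ⟨x, hx.symm⟩]
      · intro i' _ hne
        rw [if_neg]
        rintro ⟨x', hx'⟩
        exact hne (hdisj i' i x' x (hx'.trans hx))
      · intro h
        exact absurd (Finset.mem_univ i) h
    rw [Finset.sum_congr rfl fun k _ => h1 k]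
    exact_mod_cast hsum g
  have hmuq : ∀ i, (mu i : ℚ) ≠ 0 := fun i => by exact_mod_cast (hmu0 i).ne'
  -- the coefficients are semi-invariant
  have hsemi : ∀ i, Semi G fun x => dcnt t (nf D (ε i) x) := by
    intro i
    have h1 := hsep G c (hS i).comm ι X (fun i => (hS i).trans) h6 (fun i => nf D (ε i))
      (fun i x g h => nf_smul D (ε i) g x h) hn hwide
      (fun i x => (dcnt t (nf D (ε i) x) : ℚ) / (2 * mu i)) (by
        funext g
        simp only [Finset.sum_apply, Pi.smul_apply, smul_eq_mul, Pi.zero_apply]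
        rw [← htot g]
        refine Finset.sum_congr rfl fun i _ => ?_
        have h2 := hrel g i
        have h3 : ∑ x, (dcnt t (nf D (ε i) x) : ℚ) / (2 * mu i) * (nf D (ε i) x g : ℚ) =
            (∑ x, (dcnt t (nf D (ε i) x) : ℚ) * (nf D (ε i) x g : ℚ)) / (2 * mu i) := by
          rw [Finset.sum_div]
          exact Finset.sum_congr rfl fun x _ => by ring
        rw [h3, h2]
        have := hmuq i
        field_simp) i
    refine hsing G (X i) c (hS i) D (ε i) (hε i) (h6 i) (fun x => dcnt t (nf D (ε i) x)) ?_ ?_ ?_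
    · intro x
      rw [hn, hAneg]
    · intro x y hxy
      rw [hxy]
    · have h2 := Submodule.smul_mem _ (2 * (mu i : ℚ)) h1
      have h3 : (2 * (mu i : ℚ)) • ∑ x, ((dcnt t (nf D (ε i) x) : ℚ) / (2 * mu i)) •
          (fun g => (nf D (ε i) x g : ℚ)) =
          ∑ x, (dcnt t (nf D (ε i) x) : ℚ) • (fun g => (nf D (ε i) x g : ℚ)) := by
        rw [Finset.smul_sum]
        refine Finset.sum_congr rfl fun x _ => ?_
        rw [smul_smul]
        congr 1
        have := hmuq i
        field_simp
      rw [h3] at h2
      exact h2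
  set R : Set (G → ℤ) := {f | ∃ (i : ι) (ε' : X i → ℤ) (x : X i), IsSign c ε' ∧ f = nf D ε' x} with hR
  -- local decompositions
  have hL : ∀ i, ∃ (e : G → ℤ) (z mq : ℚ) (β : Type) (b : β → G → ℤ),
      Loc Q R (nf D (ε i)) (dcnt t) (mu i) (Nat.card D) e z mq β b := by
    intro i
    by_cases h : ∃ x, dcnt t (nf D (ε i) x) ≠ 0
    · exact loc_nonzero hloc (hS i) D (ε i) (hε i) (h6 i) Q hQ R
        (fun ε' h x => ⟨i, ε', x, h, rfl⟩) (hblock i) (dcnt t) hAneg (hsemi i) (mu i) (hmu i) h
    · push Not at h
      exact ⟨0, 0, 0, Empty, fun k => k.elim, loc_zero Q hQ R _ _ h _ _⟩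
  choose e z mq β b hLoc using hL
  have hze : ∀ g, ∑ i, z i * (e i g : ℚ) = 0 := by
    intro g
    rw [← htot g]
    refine Finset.sum_congr rfl fun i _ => ?_
    have h1 := (hLoc i).rel g
    rw [hrel g i] at h1
    have h2 : (2 * (mu i : ℚ)) ≠ 0 := mul_ne_zero two_ne_zero (hmuq i)
    apply mul_left_cancel₀ h2
    linear_combination -h1
  have hz : ∀ f : G → ℤ, f ≠ 0 → ∑ i, z i * (if e i = f then (1 : ℚ) else 0) = 0 := by
    intro f hf
    have h1 := fun i => (hLoc i).semi
    choose Y act s y0 hs1 hs2 hs3 hs4 using h1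
    have hN : (0 : ℤ) < (Nat.card D : ℤ) := by
      have : 0 < Nat.card D := Nat.card_pos
      exact_mod_cast this
    have h2 := @hind G ι _ _ Y act s y0 hs1 hs2 hs3 (Nat.card D) hN e hs4 z hze f hf
    convert h2
  -- integrality
  have hint : ∀ i, ∃ k : ℤ, mq i = k := by
    intro i
    rcases (hLoc i).int with ⟨h, -⟩ | ⟨α, F, x, h1, h2, hF, he, h3⟩
    · exact h
    · have h4 := hz (e i) he
      rw [← Finset.add_sum_erase _ _ (Finset.mem_univ i), if_pos rfl, mul_one] at h4
      obtain ⟨K, hK⟩ := int_sum (Finset.univ.erase i)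
        (fun k => z k * (if e k = e i then (1 : ℚ) else 0)) (by
          intro k hk
          have hki : k ≠ i := (Finset.mem_erase.1 hk).1
          by_cases hek : e k = e i
          · simp only [if_pos hek, mul_one]
            rcases (hLoc k).int with ⟨-, h⟩ | ⟨α', F', y, h1', h2', hF', he', h3'⟩
            · exact h
            · exfalso
              apply hki
              rw [hek] at h3'
              have h5 : nf D (ε k) y = nf D (ε i) x ∨ nf D (ε k) y = nf D (ε i) (c • x) := by
                rw [hn]
                rcases hF with rfl | rfl <;> rcases hF' with rfl | rfl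
                · left
                  funext g
                  have a1 := congrFun h3 g
                  have a2 := congrFun h3' g
                  simp only [Pi.smul_apply, smul_eq_mul] at a1 a2
                  omega
                · right
                  funext g
                  have a1 := congrFun h3 g
                  have a2 := congrFun h3' g
                  simp only [Pi.smul_apply, smul_eq_mul, Pi.neg_apply] at a1 a2 ⊢
                  omega
                · right
                  funext g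
                  have a1 := congrFun h3 g
                  have a2 := congrFun h3' g
                  simp only [Pi.smul_apply, smul_eq_mul, Pi.neg_apply] at a1 a2 ⊢
                  omega
                · left
                  funext g
                  have a1 := congrFun h3 g
                  have a2 := congrFun h3' g
                  simp only [Pi.smul_apply, smul_eq_mul] at a1 a2
                  omega
              rcases h5 with h5 | h5
              · exact hdisj k i _ _ h5
              · exact hdisj k i _ _ h5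
          · exact ⟨0, by rw [if_neg hek]; simp⟩)
      rw [hK] at h4
      refine ⟨-(F * K), ?_⟩
      rw [h2] at h4
      rw [h1]
      have hFF : (F : ℚ) * F = 1 := by
        rcases hF with rfl | rfl <;> norm_num
      push_cast
      linear_combination (F : ℚ) * h4 - (α : ℚ) / 3 * hFF
  choose m hm using hint
  refine hgrp G Q hQ R ?_ ι β b (fun i => (hLoc i).good) m κ t ?_ ?_ ?_
  · rintro f ⟨i, ε', x, h, rfl⟩
    exact hcan i ε' h x
  · intro k
    obtain ⟨i, x, hx⟩ := ht k
    exact ⟨i, ε i, x, hε i, hx⟩
  · rw [Nat.card_eq_fintype_card]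
    exact heven
  · intro f
    have H1 : ((dcnt t f : ℤ) : ℚ) =
        ∑ i, (((if ∃ x, nf D (ε i) x = f then dcnt t f else 0 : ℤ)) : ℚ) := by
      by_cases h : ∃ i x, nf D (ε i) x = f
      · obtain ⟨i, x, hx⟩ := h
        rw [Finset.sum_eq_single i]
        · rw [if_pos ⟨x, hx⟩]
        · intro i' _ hne
          rw [if_neg, Int.cast_zero]
          rintro ⟨x', hx'⟩
          exact hne (hdisj i' i x' x (hx'.trans hx.symm))
        · intro h
          exact absurd (Finset.mem_univ i) h
      · have h0 : dcnt t f = 0 := by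
          rw [dcnt_eq]
          refine Finset.sum_eq_zero fun k _ => ?_
          obtain ⟨i, x, hx⟩ := ht k
          unfold dl
          rw [if_neg (fun h1 => h ⟨i, x, by rw [← hx, h1]⟩), if_neg, sub_zero]
          intro h1
          refine h ⟨i, c • x, ?_⟩
          rw [hn, ← hx, h1, neg_neg]
        rw [h0]
        simp
    have H2 : ∑ i, z i * ((dl (e i) f : ℤ) : ℚ) = 0 := by
      by_cases hf : f = 0
      · refine Finset.sum_eq_zero fun i _ => ?_
        rw [dl_q, hf, neg_zero, sub_self, mul_zero]
      · have h1 := hz f hf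
        have h2 := hz (-f) (neg_ne_zero.2 hf)
        calc ∑ i, z i * ((dl (e i) f : ℤ) : ℚ) =
            ∑ i, z i * (if e i = f then (1 : ℚ) else 0) -
              ∑ i, z i * (if e i = -f then (1 : ℚ) else 0) := by
              rw [← Finset.sum_sub_distrib]
              refine Finset.sum_congr rfl fun i _ => ?_
              rw [dl_q, mul_sub]
              congr!
          _ = 0 := by rw [h1, h2, sub_zero]
    have H3 : ((dcnt t f : ℤ) : ℚ) = ((∑ i, m i * dcnt (b i) f : ℤ) : ℚ) := by
      rw [H1]
      have : ∀ i, (((if ∃ x, nf D (ε i) x = f then dcnt t f else 0 : ℤ)) : ℚ) =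
          (m i : ℚ) * (dcnt (b i) f : ℚ) + z i * ((dl (e i) f : ℤ) : ℚ) := by
        intro i
        rw [← hm i]
        exact (hLoc i).ident f
      rw [Finset.sum_congr rfl fun i _ => this i, Finset.sum_add_distrib, H2, add_zero]
      push_cast
      rfl
    exact_mod_cast H3

end

end Pool.Agent.W959.TC
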