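import Pool.Agent.W495.TC.Stms

/-!
Project TC, part COMB: one orbit.
-/

set_option autoImplicit false
set_option linter.unusedSectionVars false

namespace Pool.Agent.W959.TC

open Pool.Agent.W495.TC Pool.Agent.W495.TA Pool.Agent.W547.LD

noncomputable section

open Classical

section basic

variable {G X : Type} [Group G] [Fintype G] [MulAction G X] {c : G} (D : Subgroup G) (ε : X → ℤ)

theorem nf_smul (g : G) (x : X) (h : G) : nf D ε (g • x) h = nf D ε x (h * g) := by
  unfold nf
  simp only [mul_smul]

theorem nf_c (hS : Setting G X c) (hε : ∀ x, ε (c • x) = -ε x) (x : X) :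
    nf D ε (c • x) = -nf D ε x := by
  funext g
  rw [Pi.neg_apply]
  unfold nf
  rw [← Finset.sum_neg_distrib]
  refine Finset.sum_congr rfl fun d _ => ?_
  have h1 : d • g • c • x = c • d • g • x := by
    simp only [smul_smul]
    congr 1
    rw [← mul_assoc, hS.comm]
  rw [h1, hε]
  split_ifs <;> simp

theorem nf_mul (k : ℤ) (x : X) : nf D (fun x => k * ε x) x = k • nf D ε x := by
  funext g
  rw [Pi.smul_apply, smul_eq_mul]
  unfold nf
  rw [Finset.mul_sum]
  refine Finset.sum_congr rfl fun d _ => ?_
  split_ifs <;> simp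

end basic

section delta

variable {G : Type}

/-- `[h = f] - [h = -f]` -/
def dl (h f : G → ℤ) : ℤ := (if h = f then 1 else 0) - (if h = -f then 1 else 0)

theorem dl_neg (h f : G → ℤ) : dl (-h) f = -dl h f := by
  unfold dl
  have h1 : (-h = f) ↔ (h = -f) := neg_eq_iff_eq_neg
  have h2 : (-h = -f) ↔ (h = f) := neg_inj
  simp only [h1, h2]
  ring

theorem dl_zero (f : G → ℤ) : dl (0 : G → ℤ) f = 0 := by
  unfold dl
  have h1 : ((0 : G → ℤ) = f) ↔ ((0 : G → ℤ) = -f) := by
    rw [eq_comm, ← neg_eq_zero, eq_comm]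
  simp only [h1]
  ring

theorem dl_smul (F : ℤ) (e f : G → ℤ) (h : F = 1 ∨ F = -1 ∨ e = 0) :
    dl (F • e) f = F * dl e f := by
  rcases h with rfl | rfl | rfl
  · simp
  · rw [neg_smul, one_smul, dl_neg]
    ring
  · rw [smul_zero, dl_zero, mul_zero]

theorem dl_self (e : G → ℤ) (he : e ≠ 0) : dl e e = 1 := by
  unfold dl
  have h1 : e ≠ -e := by
    intro h
    apply he
    funext g
    have := congrFun h g
    simp only [Pi.neg_apply] at this
    simp only [Pi.zero_apply]
    omega
  rw [if_pos rfl, if_neg h1]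
  rfl

theorem dl_comm_neg (e f : G → ℤ) : dl e (-f) = -dl e f := by
  unfold dl
  rw [neg_neg]
  ring

theorem dcnt_eq {κ : Type} [Fintype κ] (t : κ → G → ℤ) (f : G → ℤ) :
    dcnt t f = ∑ k, dl (t k) f := by
  have h1 : ∀ f : G → ℤ, (Nat.card {k // t k = f} : ℤ) = ∑ k, if t k = f then 1 else 0 := by
    intro f
    rw [Nat.card_eq_fintype_card, Fintype.card_subtype, Finset.sum_boole]
  unfold dcnt dl
  rw [h1, h1, Finset.sum_sub_distrib]

theorem dcnt_neg {κ : Type} (t : κ → G → ℤ) (f : G → ℤ) : dcnt t (-f) = -dcnt t f := by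
  unfold dcnt
  rw [neg_neg]
  ring

end delta

section local_part

variable {G X : Type} [Group G] [Fintype G] [Fintype X] [MulAction G X] {c : G}

/-- The contribution of one orbit. -/
structure Loc (Q : (κ : Type) → (κ → G → ℤ) → Prop) (R : Set (G → ℤ)) (n : X → G → ℤ)
    (A : (G → ℤ) → ℤ) (mu : ℕ) (N : ℤ) (e : G → ℤ) (z mq : ℚ) (β : Type) (b : β → G → ℤ) : Prop where
  good : IsGood G Q R β b
  ident : ∀ f, (((if ∃ x, n x = f then A f else 0 : ℤ)) : ℚ) = mq * (dcnt b f : ℚ) + z * (dl e f : ℚ)
  rel : ∀ g, ∑ x, (A (n x) : ℚ) * (n x g : ℚ) = 2 * mu * z * (e g : ℚ)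
  semi : ∃ (Y : Type) (_ : MulAction G Y) (s : Y → ℤ) (y₀ : Y), (∀ y, s y = 1 ∨ s y = -1) ∧
    Semi G s ∧ s y₀ = 1 ∧ (e = 0 ∨ ∀ g, e g = N * s (g • y₀))
  int : ((∃ k : ℤ, mq = k) ∧ ∃ k : ℤ, z = k) ∨ ∃ (α F : ℤ) (x : X), mq = α / 3 ∧ z = α * F / 3 ∧
    (F = 1 ∨ F = -1) ∧ e ≠ 0 ∧ (3 : ℤ) • n x = F • e

theorem good_empty (Q : (κ : Type) → (κ → G → ℤ) → Prop) (hQ : Closed G Q) (R : Set (G → ℤ)) :
    IsGood G Q R Empty (fun k => k.elim) where
  fin := inferInstance
  even := by simp
  mem := fun k => k.elim
  pos := hQ.empty _ _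
  neg := hQ.empty _ _

theorem dcnt_empty (b : Empty → G → ℤ) (f : G → ℤ) : dcnt b f = 0 := by
  rw [dcnt_eq]
  simp

theorem loc_zero (Q : (κ : Type) → (κ → G → ℤ) → Prop) (hQ : Closed G Q) (R : Set (G → ℤ))
    (n : X → G → ℤ) (A : (G → ℤ) → ℤ) (hA : ∀ x, A (n x) = 0) (mu : ℕ) (N : ℤ) :
    Loc Q R n A mu N 0 0 0 Empty (fun k => k.elim) where
  good := good_empty Q hQ R
  ident := by
    intro f
    split_ifs with h
    · obtain ⟨x, rfl⟩ := h
      simp [hA]
    · simp
  rel := by
    intro g
    simp [hA]
  semi := by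
    let act : MulAction G PUnit.{1} :=
      { smul := fun _ x => x, one_smul := fun _ => rfl, mul_smul := fun _ _ _ => rfl }
    exact ⟨PUnit.{1}, act, fun _ => 1, PUnit.unit, fun _ => Or.inl rfl, fun _ => Or.inl fun _ => rfl,
      rfl, Or.inl rfl⟩
  int := Or.inl ⟨⟨0, by simp⟩, ⟨0, by simp⟩⟩

/-- `c` gives a bijection between the points of positive and of negative sign. -/
theorem card_pos (hS : Setting G X c) (s : X → ℤ) (hs : IsSign c s) :
    Fintype.card X = 2 * (Finset.univ.filter (fun x => s x = 1)).card := by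
  have h1 : (Finset.univ.filter (fun x => s x = 1)).card =
      (Finset.univ.filter (fun x => ¬ s x = 1)).card := by
    refine Finset.card_bij (fun x _ => c • x) ?_ ?_ ?_
    · intro x hx
      rw [Finset.mem_filter] at hx ⊢
      refine ⟨Finset.mem_univ _, ?_⟩
      rw [hs.odd, hx.2]
      decide
    · intro x _ y _ hxy
      exact smul_left_cancel c hxy
    · intro y hy
      rw [Finset.mem_filter] at hy
      refine ⟨c • y, ?_, ?_⟩
      · rw [Finset.mem_filter]
        refine ⟨Finset.mem_univ _, ?_⟩
        rw [hs.odd]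
        rcases hs.sign y with h | h
        · exact absurd h hy.2
        · rw [h]
          rfl
      · rw [smul_smul, hS.sq, one_smul]
  have h2 := Finset.card_filter_add_card_filter_not (s := (Finset.univ : Finset X)) (fun x => s x = 1)
  rw [Finset.card_univ] at h2
  omega

end local_part

section nonzero0

variable {G X : Type} [Fintype X]

/-- The signs are constant on the classes. -/
theorem card_cls (n : X → G → ℤ) (s : X → ℤ) (hsn : ∀ x y, n x = n y → s x = s y) (mu : ℕ)
    (hmu : ∀ x, Nat.card {x' // n x' = n x} = mu) (y : X) :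
    ∑ x : {x : X // s x = 1}, (if n x.1 = n y then (1 : ℤ) else 0) = if s y = 1 then (mu : ℤ) else 0 := by
  have h1 : ∑ x : {x : X // s x = 1}, (if n x.1 = n y then (1 : ℤ) else 0) =
      ∑ x ∈ Finset.univ.filter (fun x => s x = 1), (if n x = n y then (1 : ℤ) else 0) :=
    (Finset.sum_subtype (Finset.univ.filter (fun x => s x = 1)) (by simp)
      (fun x => if n x = n y then (1 : ℤ) else 0)).symm
  rw [h1]
  split_ifs with h
  · rw [← hmu y, Nat.card_eq_fintype_card, Fintype.card_subtype, Finset.card_filter, Finset.sum_filter]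
    push_cast
    refine Finset.sum_congr rfl fun x _ => ?_
    by_cases h2 : n x = n y
    · rw [if_pos h2, if_pos (by rw [hsn x y h2, h])]
    · simp [h2]
  · refine Finset.sum_eq_zero fun x hx => ?_
    rw [if_neg]
    intro h2
    exact h (by rw [← hsn x y h2]; exact (Finset.mem_filter.1 hx).2)

end nonzero0

section nonzero

variable {G X : Type} [Group G] [Fintype G] [Fintype X] [MulAction G X] {c : G}

theorem key (_hS : Setting G X c) (n : X → G → ℤ) (hn : ∀ x, n (c • x) = -n x) (s : X → ℤ)
    (hs : IsSign c s) (hsn : ∀ x y, n x = n y → s x = s y) (mu : ℕ)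
    (hmu : ∀ x, Nat.card {x' // n x' = n x} = mu) (A : (G → ℤ) → ℤ) (α : ℤ)
    (hA : ∀ x, A (n x) = α * s x) (f : G → ℤ) :
    (mu : ℤ) * (if ∃ x, n x = f then A f else 0) = α * ∑ x : {x : X // s x = 1}, dl (n x.1) f := by
  split_ifs with h
  · obtain ⟨y, rfl⟩ := h
    have h1 : ∑ x : {x : X // s x = 1}, dl (n x.1) (n y) = s y * mu := by
      unfold dl
      rw [Finset.sum_sub_distrib, ← hn y, card_cls n s hsn mu hmu y, card_cls n s hsn mu hmu (c • y),
        hs.odd]
      rcases hs.sign y with h | h <;> simp [h]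
    rw [h1, hA]
    ring
  · rw [mul_zero]
    symm
    rw [Finset.sum_eq_zero, mul_zero]
    intro x _
    unfold dl
    rw [if_neg (fun h1 => h ⟨x.1, h1⟩), if_neg, sub_zero]
    intro h1
    refine h ⟨c • x.1, ?_⟩
    rw [hn, h1, neg_neg]

theorem good_block (hS : Setting G X c) (D : Subgroup G) (ε : X → ℤ) (hε : IsSign c ε)
    (Q : (κ : Type) → (κ → G → ℤ) → Prop) (hQ : Closed G Q) (R : Set (G → ℤ))
    (hR : ∀ ε' : X → ℤ, IsSign c ε' → ∀ x, nf D ε' x ∈ R)
    (hblock : ∀ s : X → ℤ, IsSign c s → Semi G s →
      (∀ x y, nf D ε x = nf D ε y → s x = s y) → Fintype.card X = 6 →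
      ∀ x₀, s x₀ = 1 → ∀ F : ℤ, (F = ∑ x, if s x = 1 then ε x else 0) →
      (F = 1 ∨ F = -1 ∨ nf D s x₀ = 0) →
      Q ({x : X // s x = 1} ⊕ Fin 1)
        (Sum.elim (fun x => nf D ε x.1) fun _ => -F • nf D s x₀))
    (s : X → ℤ) (hs : IsSign c s) (hsS : Semi G s)
    (hsn : ∀ x y, nf D ε x = nf D ε y → s x = s y) (h6 : Fintype.card X = 6) (x₀ : X)
    (hx₀ : s x₀ = 1) (F : ℤ) (hF : F = ∑ x, if s x = 1 then ε x else 0)
    (hF1 : F = 1 ∨ F = -1 ∨ nf D s x₀ = 0) :
    IsGood G Q R ({x : X // s x = 1} ⊕ Fin 1)
      (Sum.elim (fun x => nf D ε x.1) fun _ => -F • nf D s x₀) where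
  fin := inferInstance
  even := by
    have h1 := card_pos hS s hs
    rw [Nat.card_eq_fintype_card, Fintype.card_sum, Fintype.card_subtype, Fintype.card_fin]
    have h2 : (Finset.univ.filter (fun x => s x = 1)).card = 3 := by omega
    rw [h2]
    decide
  mem := by
    rintro (x | x)
    · exact hR ε hε x.1
    · simp only [Sum.elim_inr]
      have h1 : IsSign c (fun x => s x) := hs
      rcases hF1 with rfl | rfl | h
      · rw [← nf_mul]
        refine hR _ ⟨fun x => ?_, fun x => ?_⟩ _
        · rcases hs.sign x with h | h <;> simp [h]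
        · simp only [hs.odd]
          ring
      · rw [neg_neg, one_smul]
        exact hR s hs x₀
      · rw [h, smul_zero, ← h]
        exact hR s hs x₀
  pos := hblock s hs hsS hsn h6 x₀ hx₀ F hF hF1
  neg := by
    set s' : X → ℤ := fun x => (-1) * s x with hs'
    have hs1 : IsSign c s' := ⟨fun x => by rcases hs.sign x with h | h <;> simp [hs', h],
      fun x => by simp only [hs', hs.odd]; ring⟩
    have hs2 : Semi G s' := by
      intro g
      rcases hsS g with h | h
      · left
        intro x
        simp only [hs', h]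
      · right
        intro x
        simp only [hs', h]
        ring
    have hs3 : ∀ x y, nf D ε x = nf D ε y → s' x = s' y := by
      intro x y hxy
      simp only [hs', hsn x y hxy]
    have hcc : ∀ x : X, c • c • x = x := fun x => by rw [smul_smul, hS.sq, one_smul]
    have hF' : -F = ∑ x, if s' x = 1 then ε x else 0 := by
      rw [hF, ← Finset.sum_neg_distrib]
      refine Finset.sum_bij (fun x _ => c • x) (fun _ _ => Finset.mem_univ _)
        (fun x _ y _ h => smul_left_cancel c h) (fun y _ => ⟨c • y, Finset.mem_univ _, hcc y⟩) ?_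
      intro x _
      simp only [hs', hs.odd, hε.odd]
      rcases hs.sign x with h | h <;> simp [h]
    have hx1 : s' (c • x₀) = 1 := by
      simp only [hs', hs.odd, hx₀]
      ring
    have he : nf D s' (c • x₀) = nf D s x₀ := by
      rw [nf_c D s' hS hs1.odd, hs', nf_mul, neg_smul, one_smul, neg_neg]
    have h1 := hblock s' hs1 hs2 hs3 h6 (c • x₀) hx1 (-F) hF' (by
      rw [he]
      rcases hF1 with h | h | h
      · right; left; rw [h]
      · left; rw [h]; rfl
      · right; right; exact h)
    rw [he, neg_neg] at h1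
    let eq : ({x : X // s' x = 1} ⊕ Fin 1) ≃ ({x : X // s x = 1} ⊕ Fin 1) :=
      Equiv.sumCongr
        { toFun := fun x => ⟨c • x.1, by
            have := x.2
            rw [hs.odd]
            simp only [hs'] at this
            linarith⟩
          invFun := fun x => ⟨c • x.1, by
            have := x.2
            simp only [hs', hs.odd]
            linarith⟩
          left_inv := fun x => Subtype.ext (hcc x.1)
          right_inv := fun x => Subtype.ext (hcc x.1) } (Equiv.refl _)
    refine hQ.reindex _ _ eq _ _ ?_ h1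
    rintro (x | x)
    · show -(nf D ε (c • x.1)) = nf D ε x.1
      rw [nf_c D ε hS hε.odd, neg_neg]
    · show -(-F • nf D s x₀) = F • nf D s x₀
      rw [neg_smul, neg_neg]

theorem loc_nonzero (hloc : S_loc) (hS : Setting G X c) (D : Subgroup G) (ε : X → ℤ)
    (hε : IsSign c ε) (h6 : Fintype.card X ≤ 6)
    (Q : (κ : Type) → (κ → G → ℤ) → Prop) (hQ : Closed G Q) (R : Set (G → ℤ))
    (hR : ∀ ε' : X → ℤ, IsSign c ε' → ∀ x, nf D ε' x ∈ R)
    (hblock : ∀ s : X → ℤ, IsSign c s → Semi G s →
      (∀ x y, nf D ε x = nf D ε y → s x = s y) → Fintype.card X = 6 →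
      ∀ x₀, s x₀ = 1 → ∀ F : ℤ, (F = ∑ x, if s x = 1 then ε x else 0) →
      (F = 1 ∨ F = -1 ∨ nf D s x₀ = 0) →
      Q ({x : X // s x = 1} ⊕ Fin 1)
        (Sum.elim (fun x => nf D ε x.1) fun _ => -F • nf D s x₀))
    (A : (G → ℤ) → ℤ) (hAneg : ∀ f, A (-f) = -A f)
    (hsemi : Semi G fun x => A (nf D ε x)) (mu : ℕ)
    (hmu0 : ∀ x, Nat.card {x' // nf D ε x' = nf D ε x} = mu)
    (hne : ∃ x, A (nf D ε x) ≠ 0) :
    ∃ (e : G → ℤ) (z mq : ℚ) (β : Type) (b : β → G → ℤ),
      Loc Q R (nf D ε) A mu (Nat.card D) e z mq β b := by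
  obtain ⟨x1, hx1⟩ := hne
  have hmu : ∀ x, (Finset.univ.filter (fun x' => nf D ε x' = nf D ε x)).card = mu := by
    intro x
    rw [← hmu0 x, Nat.card_eq_fintype_card, Fintype.card_subtype]
  have hn : ∀ x, nf D ε (c • x) = -nf D ε x := nf_c D ε hS hε.odd
  set α : ℤ := |A (nf D ε x1)| with hα
  have hα0 : 0 < α := abs_pos.2 hx1
  have habs : ∀ x, |A (nf D ε x)| = α := by
    intro x
    obtain ⟨g, rfl⟩ := hS.trans x1 x
    rcases hsemi g with h | h
    · have := h x1
      simp only at this
      rw [this]
    · have := h x1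
      simp only at this
      rw [this, abs_neg]
  set s : X → ℤ := fun x => if 0 < A (nf D ε x) then 1 else -1 with hs
  have ha : ∀ x, A (nf D ε x) = α * s x := by
    intro x
    rw [← habs x]
    simp only [hs]
    split_ifs with h
    · rw [abs_of_pos h, mul_one]
    · rw [abs_of_nonpos (not_lt.1 h)]
      ring
  have hcancel : ∀ u v : ℤ, α * u = α * v → u = v := fun u v h => mul_left_cancel₀ hα0.ne' h
  have hsg : IsSign c s := by
    refine ⟨fun x => ?_, fun x => ?_⟩
    · simp only [hs]
      split_ifs
      · left; rfl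
      · right; rfl
    · apply hcancel
      rw [← ha, hn, hAneg, ha]
      ring
  have hsS : Semi G s := by
    intro g
    rcases hsemi g with h | h
    · left
      intro x
      apply hcancel
      rw [← ha, ← ha]
      exact h x
    · right
      intro x
      apply hcancel
      have := h x
      simp only at this
      rw [← ha, this, ha]
      ring
  have hsn : ∀ x y, nf D ε x = nf D ε y → s x = s y := by
    intro x y hxy
    apply hcancel
    rw [← ha, ← ha, hxy]
  obtain ⟨x₀, hx₀⟩ : ∃ x₀, s x₀ = 1 := by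
    rcases hsg.sign x1 with h | h
    · exact ⟨x1, h⟩
    · exact ⟨c • x1, by rw [hsg.odd, h]; rfl⟩
  obtain ⟨L1, L2, L3, L4, L5⟩ := hloc G X c hS D ε hε h6 s hsg hsS hsn x₀ hx₀ _ rfl
  set F : ℤ := ∑ x, if s x = 1 then ε x else 0 with hF
  set e := nf D s x₀ with he
  have hmu1 : 0 < mu := by
    rw [← hmu x₀]
    exact Finset.card_pos.2 ⟨x₀, Finset.mem_filter.2 ⟨Finset.mem_univ _, rfl⟩⟩
  have hmuq : (mu : ℚ) ≠ 0 := by exact_mod_cast hmu1.ne'
  have hsemi' : ∃ (Y : Type) (_ : MulAction G Y) (s : Y → ℤ) (y₀ : Y), (∀ y, s y = 1 ∨ s y = -1) ∧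
      Semi G s ∧ s y₀ = 1 ∧ (e = 0 ∨ ∀ g, e g = (Nat.card D : ℤ) * s (g • y₀)) :=
    ⟨X, inferInstance, s, x₀, hsg.sign, hsS, hx₀, L3⟩
  rcases L5 with ⟨c6, hF1⟩ | ⟨u, hu, hnu, -⟩
  · refine ⟨e, α * F / mu, α / mu, {x : X // s x = 1} ⊕ Fin 1,
      Sum.elim (fun x => nf D ε x.1) fun _ => -F • e,
      good_block hS D ε hε Q hQ R hR hblock s hsg hsS hsn c6 x₀ hx₀ F hF hF1, ?_, ?_, hsemi', ?_⟩
    · intro f
      have h1 := key hS (nf D ε) hn s hsg hsn mu hmu0 A α ha f
      have h2 : dcnt (Sum.elim (fun x : {x : X // s x = 1} => nf D ε x.1)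
          (fun _ : Fin 1 => -F • e)) f = ∑ x : {x : X // s x = 1}, dl (nf D ε x.1) f - F * dl e f := by
        rw [dcnt_eq, Fintype.sum_sum_type]
        simp only [Sum.elim_inl, Sum.elim_inr, Finset.univ_unique, Finset.sum_const,
          Finset.card_singleton, one_smul]
        rw [dl_smul (-F) e f]
        · ring
        · rcases hF1 with h | h | h
          · right; left; rw [h]
          · left; rw [h]; rfl
          · right; right; exact h
      rw [h2]
      have h3 : (mu : ℚ) * (((if ∃ x, nf D ε x = f then A f else 0 : ℤ)) : ℚ) =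
          α * ((∑ x : {x : X // s x = 1}, dl (nf D ε x.1) f : ℤ) : ℚ) := by
        exact_mod_cast h1
      rw [Int.cast_sub, Int.cast_mul]
      field_simp
      linear_combination h3
    · intro g
      have h1 : ∑ x, ((A (nf D ε x) : ℤ) : ℚ) * ((nf D ε x g : ℤ) : ℚ) =
          α * ((∑ x, s x * nf D ε x g : ℤ) : ℚ) := by
        push_cast
        rw [Finset.mul_sum]
        refine Finset.sum_congr rfl fun x _ => ?_
        rw [ha]
        push_cast
        ring
      rw [h1, L1]
      push_cast
      field_simp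
    · rcases L4 with hinj | hcon
      · left
        have hmu1 : mu = 1 := by
          rw [← hmu x₀, Finset.card_eq_one]
          refine ⟨x₀, ?_⟩
          ext x
          simp only [Finset.mem_filter, Finset.mem_univ, true_and, Finset.mem_singleton]
          exact ⟨fun h => hinj h, fun h => by rw [h]⟩
        subst hmu1
        exact ⟨⟨α, by simp⟩, ⟨α * F, by simp⟩⟩
      · right
        have hmu3 : mu = 3 := by
          have h1 := card_pos hS s hsg
          rw [← hmu x₀]
          have h2 : (Finset.univ.filter (fun x' => nf D ε x' = nf D ε x₀)) =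
              (Finset.univ.filter (fun x => s x = 1)) := by
            ext x
            simp only [Finset.mem_filter, Finset.mem_univ, true_and]
            exact ⟨fun h => by rw [hsn x x₀ h, hx₀], hcon x⟩
          rw [h2]
          omega
        have hcon' : ∀ x, nf D ε x = s x • nf D ε x₀ := by
          intro x
          rcases hsg.sign x with h | h
          · rw [hcon x h, h, one_smul]
          · have h1 := hcon (c • x) (by rw [hsg.odd, h]; rfl)
            rw [hn] at h1
            rw [h, ← h1, neg_smul, one_smul, neg_neg]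
        have h6' : ∀ g, 3 * nf D ε x₀ g = F * e g := by
          intro g
          have h1 := L1 g
          have h2 : ∑ x, s x * nf D ε x g = 6 * nf D ε x₀ g := by
            rw [Finset.sum_congr rfl (g := fun _ => nf D ε x₀ g)]
            · rw [Finset.sum_const, Finset.card_univ, c6]
              simp
            · intro x _
              have := congrFun (hcon' x) g
              simp only [Pi.smul_apply, smul_eq_mul] at this
              rw [this]
              rcases hsg.sign x with h | h <;> simp [h]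
          rw [h2] at h1
          linarith
        have he0 : e ≠ 0 := by
          intro h0
          have h7 : nf D ε x₀ = 0 := by
            funext g
            have := h6' g
            rw [h0] at this
            simp only [Pi.zero_apply, mul_zero] at this ⊢
            omega
          have h8 : nf D ε (c • x₀) = nf D ε x₀ := by rw [hn, h7, neg_zero]
          have h9 := hsn _ _ h8
          rw [hsg.odd, hx₀] at h9
          exact absurd h9 (by decide)
        refine ⟨α, F, x₀, by rw [hmu3]; rfl, by rw [hmu3]; rfl, ?_, he0, ?_⟩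
        · rcases hF1 with h | h | h
          · left; exact h
          · right; exact h
          · exact absurd h he0
        · funext g
          simp only [Pi.smul_apply, smul_eq_mul]
          exact h6' g
  · have hn2 : ∀ x, nf D ε x = (u * s x) • e := by
      intro x
      rw [hnu x, L2 x, smul_smul]
    have he0 : e ≠ 0 := by
      intro h0
      have h7 : ∀ x, nf D ε x = 0 := fun x => by rw [hn2, h0, smul_zero]
      have h8 : nf D ε (c • x₀) = nf D ε x₀ := by rw [h7, h7]
      have h9 := hsn _ _ h8
      rw [hsg.odd, hx₀] at h9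
      exact absurd h9 (by decide)
    have hX : (Fintype.card X : ℚ) = 2 * mu := by
      have h1 := card_pos hS s hsg
      have h2 : (Finset.univ.filter (fun x' => nf D ε x' = nf D ε x₀)) =
          (Finset.univ.filter (fun x => s x = 1)) := by
        ext x
        simp only [Finset.mem_filter, Finset.mem_univ, true_and]
        refine ⟨fun h => by rw [hsn x x₀ h, hx₀], fun h => ?_⟩
        rw [hn2, hn2, h, hx₀]
      rw [← h2, hmu x₀] at h1
      exact_mod_cast h1
    have hus : ∀ x, u * s x = 1 ∨ u * s x = -1 := by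
      intro x
      rcases hu with h | h <;> rcases hsg.sign x with h' | h' <;> simp [h, h']
    have huu : u * u = 1 := by rcases hu with h | h <;> simp [h]
    refine ⟨e, α * u, 0, Empty, fun k => k.elim, good_empty Q hQ R, ?_, ?_, hsemi',
      Or.inl ⟨⟨0, by simp⟩, ⟨α * u, by push_cast; rfl⟩⟩⟩
    · intro f
      rw [zero_mul, zero_add]
      split_ifs with h
      · obtain ⟨y, rfl⟩ := h
        have h1 : dl e (nf D ε y) = u * s y := by
          rw [hn2 y]
          rcases hus y with h | h
          · rw [h, one_smul, dl_self e he0]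
          · rw [h, neg_smul, one_smul, dl_comm_neg, dl_self e he0]
        rw [h1, ha]
        have h2 : α * s y = α * u * (u * s y) := by
          rw [show α * u * (u * s y) = α * (u * u) * s y by ring, huu, mul_one]
        rw [h2]
        push_cast
        ring
      · have h1 : dl e f = 0 := by
          have hx : nf D ε x₀ = u • e := by rw [hn2, hx₀, mul_one]
          have hx' : nf D ε (c • x₀) = -(u • e) := by rw [hn, hx]
          unfold dl
          rw [if_neg, if_neg, sub_zero]
          · intro h2
            apply h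
            rcases hu with h3 | h3
            · refine ⟨c • x₀, ?_⟩
              rw [hx', h3, one_smul, h2, neg_neg]
            · refine ⟨x₀, ?_⟩
              rw [hx, h3, neg_smul, one_smul, h2, neg_neg]
          · intro h2
            apply h
            rcases hu with h3 | h3
            · exact ⟨x₀, by rw [hx, h3, one_smul, h2]⟩
            · exact ⟨c • x₀, by rw [hx', h3, neg_smul, one_smul, neg_neg, h2]⟩
        rw [h1]
        simp
    · intro g
      have h1 : ∑ x, ((A (nf D ε x) : ℤ) : ℚ) * ((nf D ε x g : ℤ) : ℚ) =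
          ∑ _x : X, (α : ℚ) * u * e g := by
        refine Finset.sum_congr rfl fun x _ => ?_
        rw [ha, hn2]
        simp only [Pi.smul_apply, smul_eq_mul]
        have h3 : s x * s x = 1 := by rcases hsg.sign x with h | h <;> simp [h]
        have h4 : (α * s x) * (u * s x * e g) = α * u * e g := by
          rw [show (α * s x) * (u * s x * e g) = α * u * (s x * s x) * e g by ring, h3, mul_one]
        exact_mod_cast h4
      rw [h1, Finset.sum_const, Finset.card_univ, nsmul_eq_mul, hX]
      ring

end nonzero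

end

end Pool.Agent.W959.TC
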